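import Pool.Agent.H31.NR.Lib

/-! Alternating `3 x 3` forms. -/

namespace Pool.NR

open H31

theorem a2a : A2AStmt := by
  intro p _ B hB hA
  obtain ⟨b00, b01, b02, b10, b11, b12, b20, b21, b22, rfl⟩ := ex9 B
  have e00 : b00 = 0 := hA.1 0
  have e11 : b11 = 0 := hA.1 1
  have e22 : b22 = 0 := hA.1 2
  have e10 : b10 = -b01 := hA.2 1 0
  have e20 : b20 = -b02 := hA.2 2 0
  have e21 : b21 = -b12 := hA.2 2 1
  subst e00 e11 e22 e10 e20 e21
  by_cases h01 : b01 = 0
  · by_cases h02 : b02 = 0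
    · by_cases h12 : b12 = 0
      · subst h01 h02 h12
        exfalso
        apply hB
        funext i j
        fin_cases i <;> fin_cases j <;> simp
      · refine mk 0 1 0 0 0 1 b12 (-b02) b01 b12 ?_ h12 ?_ ?_ ?_ ?_ ?_ ?_ ?_ ?_ ?_
        · intro h; apply h12; linear_combination h
        all_goals ring
    · refine mk 1 0 0 0 0 1 b12 (-b02) b01 b02 ?_ h02 ?_ ?_ ?_ ?_ ?_ ?_ ?_ ?_ ?_
      · intro h; apply h02; linear_combination h
      all_goals ring
  · refine mk 1 0 0 0 1 0 b12 (-b02) b01 b01 ?_ h01 ?_ ?_ ?_ ?_ ?_ ?_ ?_ ?_ ?_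
    · intro h; apply h01; linear_combination h
    all_goals ring

end Pool.NR
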