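import Pool.Agent.H31.NR.Lib

/-! Nonsymmetric forms with `B (x_0, x_0) ≠ 0`. -/

namespace Pool.NR

open H31

theorem neg2 : ∀ x : ZMod 2, x = -x := by decide

/-- Orthogonalise to `x_0`. -/
theorem a2e_one {p : ℕ} [Fact p.Prime] (b00 b01 b02 b11 b12 b21 b22 : ZMod p)
    (h0 : b00 ≠ 0) (h12 : b12 ≠ b21) :
    ∃ b c d e : ZMod p, c ≠ d ∧ Eq2a ![![b00, b01, b02], ![b01, b11, b12], ![b02, b21, b22]]
      ![![1, 0, 0], ![0, b, c], ![0, d, e]] := by
  refine ⟨(b11 - b01 * b01 / b00) / b00, (b12 - b01 * b02 / b00) / b00,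
    (b21 - b01 * b02 / b00) / b00, (b22 - b02 * b02 / b00) / b00, ?_,
    mk 1 0 0 (-b01 / b00) 1 0 (-b02 / b00) 0 1 b00 ?_ h0 ?_ ?_ ?_ ?_ ?_ ?_ ?_ ?_ ?_⟩
  · intro h
    apply h12
    field_simp at h
    have h' : b00 * (b12 - b21) = 0 := by linear_combination h
    rcases mul_eq_zero.mp h' with h'' | h''
    · exact absurd h'' h0
    · exact sub_eq_zero.mp h''
  · simp
  all_goals (field_simp; try ring)

/-- The case of a vector `(X, Y)` of nonzero norm `q`. -/
theorem a2e_two {p : ℕ} [Fact p.Prime] (b c d e X Y q : ZMod p) (hcd : c ≠ d)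
    (hq : q ≠ 0) (hv : q = X * (X * b + Y * c) + Y * (X * d + Y * e)) :
    Eq2a (p := p) ![![1, 0, 0], ![0, b, c], ![0, d, e]]
      ![![1, 0, 0], ![0, q, 1], ![0, 0, (b * e - c * d) / ((c - d) ^ 2 * q)]] := by
  have hcd' : c - d ≠ 0 := sub_ne_zero.mpr hcd
  refine mk 1 0 0 0 X Y 0
    (-(X * d + Y * e) / ((c - d) * q)) ((X * b + Y * c) / ((c - d) * q)) 1 ?_ one_ne_zero
    ?_ ?_ ?_ ?_ ?_ ?_ ?_ ?_ ?_
  · intro h
    apply hq
    have h' : (X * ((X * b + Y * c) / ((c - d) * q)) -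
        Y * (-(X * d + Y * e) / ((c - d) * q))) = 0 := by
      linear_combination h
    field_simp at h'
    linear_combination hv + h'
  · ring
  · ring
  · ring
  · ring
  · linear_combination hv
  · field_simp
    rw [hv]; ring
  · ring
  · field_simp
    ring
  · field_simp
    rw [hv]; ring

theorem a2e_three {p : ℕ} [Fact p.Prime] (b c d e X Y : ZMod p) (hcd : c ≠ d)
    (hv : 1 = X * (X * b + Y * c) + Y * (X * d + Y * e)) :
    ∃ B', NF2aE B' ∧ Eq2a (p := p) ![![1, 0, 0], ![0, b, c], ![0, d, e]] B' :=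
  ⟨_, NF2aE.m1 _, a2e_two b c d e X Y 1 hcd one_ne_zero hv⟩

theorem a2e_four (h2 : KREStmt) {p : ℕ} [Fact p.Prime] (q z : ZMod p) (hq : q ≠ 0) :
    ∃ B', NF2aE B' ∧ Eq2a (p := p) ![![1, 0, 0], ![0, q, 1], ![0, 0, z]] B' := by
  by_cases hp : p = 2
  · subst hp
    have : q = 1 := by
      rcases zmod2 q with h | h
      · exact absurd h hq
      · exact h
    subst this
    exact ⟨_, NF2aE.m1 _, mk 1 0 0 0 1 0 0 0 1 1 (by simp) one_ne_zero (by ring) (by ring)
      (by ring) (by ring) (by ring) (by ring) (by ring) (by ring) (by ring)⟩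
  · have h20 : (2 : ZMod p) ≠ 0 := two_ne hp
    have h40 : (4 : ZMod p) ≠ 0 := by
      have : (4 : ZMod p) = 2 * 2 := by norm_num
      rw [this]; exact mul_ne_zero h20 h20
    by_cases hz : 4 * q * z - 1 = 0
    · obtain ⟨s, t, hs, ht, rfl⟩ := h2 p 2 q hq
      have hs0 : s ≠ 0 := hs.1
      by_cases hs1 : s = 1
      · subst hs1
        refine a2e_three _ _ _ _ t⁻¹ 0 one_ne_zero ?_
        field_simp
        ring
      · have hz' : z = (4 * (s * t ^ 2))⁻¹ := by
          apply eq_inv_of_mul_eq_one_left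
          linear_combination hz
        refine ⟨_, NF2aE.e1 s hp hs hs1, mk 1 0 0 0 t⁻¹ 0 0 0 t 1 ?_ one_ne_zero ?_ ?_ ?_ ?_ ?_ ?_ ?_
          ?_ ?_⟩
        · simp [ht]
        · ring
        · ring
        · ring
        · ring
        · field_simp; ring
        · field_simp; ring
        · ring
        · ring
        · subst hz'; field_simp; ring
    · obtain ⟨S, Y, h⟩ := rep2 1 (4 * q * z - 1) (4 * q) one_ne_zero hz
      refine a2e_three _ _ _ _ ((S - Y) / (2 * q)) Y one_ne_zero ?_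
      field_simp
      linear_combination -h

theorem a2e (_h1 : KR2Stmt) (h2 : KREStmt) : A2EStmt := by
  intro p _ B e01 e02 h12 h0
  obtain ⟨b00, b01, b02, b10, b11, b12, b20, b21, b22, rfl⟩ := ex9 B
  have e01' : b01 = b10 := e01
  have e02' : b02 = b20 := e02
  have h12' : b12 ≠ b21 := h12
  have h0' : b00 ≠ 0 := h0
  subst e01' e02'
  obtain ⟨b, c, d, e, hcd, hE⟩ := a2e_one b00 b01 b02 b11 b12 b21 b22 h0' h12'
  suffices hh : ∃ B', NF2aE B' ∧ Eq2a (p := p) ![![1, 0, 0], ![0, b, c], ![0, d, e]] B' by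
    obtain ⟨B', hB', hE'⟩ := hh
    exact ⟨B', hB', trans hE hE'⟩
  have key : ∀ X Y q : ZMod p, q ≠ 0 → q = X * (X * b + Y * c) + Y * (X * d + Y * e) →
      ∃ B', NF2aE B' ∧ Eq2a (p := p) ![![1, 0, 0], ![0, b, c], ![0, d, e]] B' := by
    intro X Y q hq hv
    obtain ⟨B', hB', hE'⟩ := a2e_four h2 q ((b * e - c * d) / ((c - d) ^ 2 * q)) hq
    exact ⟨B', hB', trans (a2e_two b c d e X Y q hcd hq hv) hE'⟩
  by_cases hb : b = 0
  · by_cases he : e = 0
    · by_cases hs : c + d = 0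
      · subst hb he
        have hd : d = -c := by linear_combination hs
        subst hd
        have hc : c ≠ 0 := by
          rintro rfl
          exact hcd (by ring)
        have hp : p ≠ 2 := by
          rintro rfl
          exact hcd (neg2 c)
        refine ⟨_, NF2aE.j1 hp, mk 1 0 0 0 c⁻¹ 0 0 0 1 1 ?_ one_ne_zero ?_ ?_ ?_ ?_ ?_ ?_ ?_ ?_ ?_⟩
        · simp [hc]
        · ring
        · ring
        · ring
        · ring
        · ring
        · field_simp; ring
        · ring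
        · field_simp; ring
        · ring
      · exact key 1 1 (c + d) hs (by rw [hb, he]; ring)
    · exact key 0 1 e he (by ring)
  · exact key 1 0 b hb (by ring)

end Pool.NR
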