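import Pool.Agent.H31.NR.Lib

/-! The kernel of `B - B^T`. -/

namespace Pool.NR

open H31

theorem a2k : A2KStmt := by
  intro p _ B hB
  obtain ⟨b00, b01, b02, b10, b11, b12, b20, b21, b22, rfl⟩ := ex9 B
  by_cases h01 : b01 - b10 = 0
  · by_cases h02 : b02 - b20 = 0
    · by_cases h12 : b12 - b21 = 0
      · exfalso
        apply hB
        have e10 : b10 = b01 := by linear_combination -h01
        have e20 : b20 = b02 := by linear_combination -h02
        have e21 : b21 = b12 := by linear_combination -h12
        subst e10 e20 e21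
        intro i j
        fin_cases i <;> fin_cases j <;> rfl
      · refine ⟨_, mk (b12 - b21) (-(b02 - b20)) (b01 - b10) 0 1 0 0 0 1 1 ?_ one_ne_zero
          (one_mul _) (one_mul _) (one_mul _) (one_mul _) (one_mul _) (one_mul _) (one_mul _)
          (one_mul _) (one_mul _), ?_, ?_, ?_⟩
        · intro h; apply h12; linear_combination h
        · show _ * (_ + _ + _) + _ * (_ + _ + _) + _ * (_ + _ + _) =
            _ * (_ + _ + _) + _ * (_ + _ + _) + _ * (_ + _ + _)
          ring
        · show _ * (_ + _ + _) + _ * (_ + _ + _) + _ * (_ + _ + _) =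
            _ * (_ + _ + _) + _ * (_ + _ + _) + _ * (_ + _ + _)
          ring
        · show _ * (_ + _ + _) + _ * (_ + _ + _) + _ * (_ + _ + _) ≠
            _ * (_ + _ + _) + _ * (_ + _ + _) + _ * (_ + _ + _)
          intro h; apply h12; linear_combination h
    · refine ⟨_, mk (b12 - b21) (-(b02 - b20)) (b01 - b10) 1 0 0 0 0 1 1 ?_ one_ne_zero
          (one_mul _) (one_mul _) (one_mul _) (one_mul _) (one_mul _) (one_mul _) (one_mul _)
          (one_mul _) (one_mul _), ?_, ?_, ?_⟩
      · intro h; apply h02; linear_combination h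
      · show _ * (_ + _ + _) + _ * (_ + _ + _) + _ * (_ + _ + _) =
          _ * (_ + _ + _) + _ * (_ + _ + _) + _ * (_ + _ + _)
        ring
      · show _ * (_ + _ + _) + _ * (_ + _ + _) + _ * (_ + _ + _) =
          _ * (_ + _ + _) + _ * (_ + _ + _) + _ * (_ + _ + _)
        ring
      · show _ * (_ + _ + _) + _ * (_ + _ + _) + _ * (_ + _ + _) ≠
          _ * (_ + _ + _) + _ * (_ + _ + _) + _ * (_ + _ + _)
        intro h; apply h02; linear_combination h
  · refine ⟨_, mk (b12 - b21) (-(b02 - b20)) (b01 - b10) 1 0 0 0 1 0 1 ?_ one_ne_zero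
        (one_mul _) (one_mul _) (one_mul _) (one_mul _) (one_mul _) (one_mul _) (one_mul _)
        (one_mul _) (one_mul _), ?_, ?_, ?_⟩
    · intro h; apply h01; linear_combination h
    · show _ * (_ + _ + _) + _ * (_ + _ + _) + _ * (_ + _ + _) =
        _ * (_ + _ + _) + _ * (_ + _ + _) + _ * (_ + _ + _)
      ring
    · show _ * (_ + _ + _) + _ * (_ + _ + _) + _ * (_ + _ + _) =
        _ * (_ + _ + _) + _ * (_ + _ + _) + _ * (_ + _ + _)
      ring
    · show _ * (_ + _ + _) + _ * (_ + _ + _) + _ * (_ + _ + _) ≠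
        _ * (_ + _ + _) + _ * (_ + _ + _) + _ * (_ + _ + _)
      intro h; apply h01; linear_combination h

end Pool.NR
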