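import Pool.Agent.H31.NR.Lib

/-! Nonsymmetric forms with a generator annihilating everything. -/

namespace Pool.NR

open H31

/-- The case of a vector `(X, Y)` of nonzero norm `q`. -/
theorem a2m_aux {p : ℕ} [Fact p.Prime] (b c d e X Y q : ZMod p) (hcd : c ≠ d)
    (hq : q ≠ 0) (hv : q = X * (X * b + Y * c) + Y * (X * d + Y * e)) :
    ∃ B', NF2aM B' ∧ Eq2a (p := p) ![![0, 0, 0], ![0, b, c], ![0, d, e]] B' := by
  have hcd' : c - d ≠ 0 := sub_ne_zero.mpr hcd
  refine ⟨_, NF2aM.m ((b * e - c * d) / (c - d) ^ 2), mk 0 X Y 0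
    (-(X * d + Y * e) / (c - d)) ((X * b + Y * c) / (c - d)) 1 0 0 q ?_ hq
    ?_ ?_ ?_ ?_ ?_ ?_ ?_ ?_ ?_⟩
  · intro h
    apply hq
    have h' : (X * ((X * b + Y * c) / (c - d)) - Y * (-(X * d + Y * e) / (c - d))) = 0 := by
      linear_combination h
    field_simp at h'
    linear_combination hv + h'
  · linear_combination hv
  · field_simp
    rw [hv]; ring
  · ring
  · field_simp
    ring
  · field_simp
    rw [hv]; ring
  · ring
  · ring
  · ring
  · ring

theorem a2m : A2MStmt := by
  intro p _ b c d e hcd hA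
  by_cases hb : b = 0
  · by_cases he : e = 0
    · subst hb he
      have hs : c + d ≠ 0 := by
        intro h
        apply hA
        have hd : d = -c := by linear_combination h
        subst hd
        refine ⟨?_, ?_⟩
        · intro i; fin_cases i <;> rfl
        · intro i j; fin_cases i <;> fin_cases j <;> simp
      exact a2m_aux 0 c d 0 1 1 (c + d) hcd hs (by ring)
    · exact a2m_aux b c d e 0 1 e hcd he (by ring)
  · exact a2m_aux b c d e 1 0 b hcd hb (by ring)

end Pool.NR
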