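import Pool.Agent.H31.NR.Lib

/-! Nonsymmetric forms with `B (x_0, x_0) = 0`. -/

namespace Pool.NR

open H31

theorem a2n_two : ∀ β s : ZMod 2, ∃ B' : Fin 3 → Fin 3 → ZMod 2, NF2aN B' ∧
    Eq2a (p := 2) ![![0, 1, 0], ![1, β, 0], ![0, 1, s]] B' := by
  intro β s
  rcases zmod2 β with rfl | rfl
  · exact ⟨_, NF2aN.n1 s (zmod2 s), mk 1 0 0 0 1 0 0 0 1 1 (by simp) one_ne_zero (by ring) (by ring)
      (by ring) (by ring) (by ring) (by ring) (by ring) (by ring) (by ring)⟩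
  · rcases zmod2 s with rfl | rfl
    · exact ⟨_, NF2aN.n1 0 (Or.inl rfl), mk 1 0 0 0 1 1 0 0 1 1 (by decide) (by decide)
        (by decide) (by decide)
        (by decide) (by decide) (by decide) (by decide) (by decide) (by decide) (by decide)⟩
    · exact ⟨_, NF2aN.n2 rfl, mk 1 0 0 0 1 0 0 0 1 1 (by decide) (by decide) (by decide)
        (by decide) (by decide) (by decide) (by decide) (by decide) (by decide) (by decide)
        (by decide)⟩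

theorem a2n_std {p : ℕ} [Fact p.Prime] (β s : ZMod p) : ∃ B' : Fin 3 → Fin 3 → ZMod p, NF2aN B' ∧
    Eq2a (p := p) ![![0, 1, 0], ![1, β, 0], ![0, 1, s]] B' := by
  by_cases hp : p = 2
  · subst hp
    exact a2n_two β s
  · have h20 : (2 : ZMod p) ≠ 0 := two_ne hp
    by_cases hs : s = 0
    · subst hs
      refine ⟨_, NF2aN.n1 0 (Or.inl rfl), mk 1 0 0 (-β / 2) 1 0 0 0 1 1 ?_ one_ne_zero ?_ ?_ ?_ ?_
        ?_ ?_ ?_ ?_ ?_⟩
      · simp
      all_goals (field_simp; try ring)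
    · refine ⟨_, NF2aN.n1 1 (Or.inr rfl), mk 1 0 0 (s * (-β / 2)) s 0 0 0 1 s ?_ hs ?_ ?_ ?_ ?_
        ?_ ?_ ?_ ?_ ?_⟩
      · simpa using hs
      all_goals (field_simp; try ring)

/-- The case `B (x_0, x_1) ≠ 0`. -/
theorem a2n_one {p : ℕ} [Fact p.Prime] (b01 b02 b11 b12 b21 b22 : ZMod p) (h01 : b01 ≠ 0)
    (h12 : b12 ≠ b21) : ∃ B' : Fin 3 → Fin 3 → ZMod p, NF2aN B' ∧
    Eq2a (p := p) ![![0, b01, b02], ![b01, b11, b12], ![b02, b21, b22]] B' := by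
  have hc : b21 - b12 ≠ 0 := sub_ne_zero.mpr (Ne.symm h12)
  -- w = e1 / b01, y = k (e2 - (b02/b01) e1 + m e0), k = b01 / (b21 - b12)
  obtain ⟨B', hB', hE⟩ := a2n_std (p := p) (b11 / b01 ^ 2)
    ((b01 / (b21 - b12)) ^ 2 * (b22 - (b02 / b01) * b12 - (b02 / b01) * b21 +
      (b02 / b01) ^ 2 * b11))
  refine ⟨B', hB', trans (mk 1 0 0 0 (1 / b01) 0
    ((b01 / (b21 - b12)) * (-(b12 - (b02 / b01) * b11) / b01))
    ((b01 / (b21 - b12)) * (-(b02 / b01))) (b01 / (b21 - b12)) 1 ?_ one_ne_zero ?_ ?_ ?_ ?_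
        ?_ ?_ ?_ ?_ ?_) hE⟩
  · intro h
    exact mul_ne_zero (one_div_ne_zero h01) (div_ne_zero h01 hc)
      (by linear_combination h : 1 / b01 * (b01 / (b21 - b12)) = 0)
  all_goals (field_simp; try ring)

theorem a2n : A2NStmt := by
  intro p _ B e01 e02 h12 h0 hb
  obtain ⟨b00, b01, b02, b10, b11, b12, b20, b21, b22, rfl⟩ := ex9 B
  have e01' : b01 = b10 := e01
  have e02' : b02 = b20 := e02
  have h12' : b12 ≠ b21 := h12
  have h0' : b00 = 0 := h0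
  have hb' : b01 ≠ 0 ∨ b02 ≠ 0 := hb
  subst e01' e02' h0'
  rcases hb' with h | h
  · exact a2n_one b01 b02 b11 b12 b21 b22 h h12'
  · obtain ⟨B', hB', hE⟩ := a2n_one b02 b01 b22 b21 b12 b11 h (Ne.symm h12')
    refine ⟨B', hB', trans (mk 1 0 0 0 0 1 0 1 0 1 ?_ one_ne_zero ?_ ?_ ?_ ?_ ?_ ?_ ?_ ?_ ?_) hE⟩
    · simp
    all_goals ring

end Pool.NR
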