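import Pool.Agent.H31.NR.Lib

/-! Symmetric forms, not alternating. -/

namespace Pool.NR

open H31

/-- `diag (1, q, t)` with `q, t ≠ 0`. -/
theorem a2s_diag {p : ℕ} [Fact p.Prime] (q t : ZMod p) (hq : q ≠ 0) (ht : t ≠ 0) :
    Eq2a (p := p) ![![1, 0, 0], ![0, q, 0], ![0, 0, t]] ![![1, 0, 0], ![0, 1, 0], ![0, 0, 1]] := by
  have hD : q * t ≠ 0 := mul_ne_zero hq ht
  obtain ⟨a, b, hab⟩ := rep2 q t (q * t) hq ht
  obtain ⟨c, d, hcd⟩ := rep2 (1 : ZMod p) 1 (q * t) one_ne_zero one_ne_zero
  have s1 : Eq2a (p := p) ![![1, 0, 0], ![0, q, 0], ![0, 0, t]]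
      ![![1, 0, 0], ![0, q * t, 0], ![0, 0, 1]] := by
    refine mk 1 0 0 0 a b 0 (-(t * b) / (q * t)) (q * a / (q * t)) 1 ?_ one_ne_zero ?_ ?_ ?_ ?_
        ?_ ?_ ?_ ?_ ?_
    · intro h
      field_simp at h
      have h' : q * t = 0 := by linear_combination h - hab
      exact hD h'
    · ring
    · ring
    · ring
    · ring
    · linear_combination -hab
    · field_simp; ring
    · ring
    · field_simp; ring
    · field_simp
      linear_combination -hab
  refine trans s1 (mk c 0 d 0 1 0 (-d) 0 c (q * t) ?_ hD ?_ ?_ ?_ ?_ ?_ ?_ ?_ ?_ ?_)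
  · intro h
    apply hD
    linear_combination h - hcd
  · linear_combination -hcd
  · ring
  · ring
  · ring
  · ring
  · ring
  · ring
  · ring
  · linear_combination -hcd

/-- `diag (1, q, t)` with `q ≠ 0`. -/
theorem a2s_diag' (h1 : KREStmt) {p : ℕ} [Fact p.Prime] (q t : ZMod p) (hq : q ≠ 0) :
    ∃ B', NF2aS B' ∧ Eq2a (p := p) ![![1, 0, 0], ![0, q, 0], ![0, 0, t]] B' := by
  by_cases ht : t = 0
  · subst ht
    obtain ⟨s, t, hs, ht, rfl⟩ := h1 p 2 q hq
    refine ⟨_, NF2aS.r2 s hs, mk 1 0 0 0 t⁻¹ 0 0 0 1 1 ?_ one_ne_zero ?_ ?_ ?_ ?_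
        ?_ ?_ ?_ ?_ ?_⟩
    · simpa using ht
    all_goals (field_simp; try ring)
  · exact ⟨_, NF2aS.r3, a2s_diag q t hq ht⟩

/-- `1 ⊕ N` with a vector of `N` of nonzero norm. -/
theorem a2s_block (h1 : KREStmt) {p : ℕ} [Fact p.Prime] (b c e X Y q : ZMod p) (hq : q ≠ 0)
    (hv : q = X * (X * b + Y * c) + Y * (X * c + Y * e)) :
    ∃ B', NF2aS B' ∧ Eq2a (p := p) ![![1, 0, 0], ![0, b, c], ![0, c, e]] B' := by
  obtain ⟨B', hB', hE⟩ := a2s_diag' h1 q (q * (b * e - c ^ 2)) hq
  refine ⟨B', hB', trans (mk 1 0 0 0 X Y 0 (-(X * c + Y * e)) (X * b + Y * c) 1 ?_ one_ne_zero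
    ?_ ?_ ?_ ?_ ?_ ?_ ?_ ?_ ?_) hE⟩
  · intro h
    apply hq
    linear_combination h + hv
  · ring
  · ring
  · ring
  · ring
  · linear_combination hv
  · ring
  · ring
  · ring
  · rw [hv]; ring

theorem a2s_two : Eq2a (p := 2) ![![1, 0, 0], ![0, 0, 1], ![0, 1, 0]]
    ![![1, 0, 0], ![0, 1, 0], ![0, 0, 1]] :=
  mk 1 1 0 1 0 1 1 1 1 1 (by decide) (by decide) (by decide)
    (by decide) (by decide) (by decide) (by decide) (by decide) (by decide) (by decide)
    (by decide)

/-- `1 ⊕ N`. -/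
theorem a2s_one (h1 : KREStmt) {p : ℕ} [Fact p.Prime] (b c e : ZMod p) :
    ∃ B', NF2aS B' ∧ Eq2a (p := p) ![![1, 0, 0], ![0, b, c], ![0, c, e]] B' := by
  by_cases hb : b = 0
  · by_cases he : e = 0
    · subst hb he
      by_cases hc : c = 0
      · subst hc
        exact ⟨_, NF2aS.r1, mk 1 0 0 0 1 0 0 0 1 1 (by simp) one_ne_zero (by ring) (by ring)
          (by ring) (by ring) (by ring) (by ring) (by ring) (by ring) (by ring)⟩
      · by_cases hp : p = 2
        · subst hp
          have : c = 1 := by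
            rcases zmod2 c with h | h
            · exact absurd h hc
            · exact h
          subst this
          exact ⟨_, NF2aS.r3, a2s_two⟩
        · exact a2s_block h1 0 c 0 1 1 (2 * c) (mul_ne_zero (two_ne hp) hc) (by ring)
    · exact a2s_block h1 b c e 0 1 e he (by ring)
  · exact a2s_block h1 b c e 1 0 b hb (by ring)

/-- The case `B (x_0, x_0) ≠ 0`. -/
theorem a2s_zero (h1 : KREStmt) {p : ℕ} [Fact p.Prime] (b00 b01 b02 b11 b12 b22 : ZMod p)
    (h0 : b00 ≠ 0) :
    ∃ B', NF2aS B' ∧ Eq2a (p := p) ![![b00, b01, b02], ![b01, b11, b12], ![b02, b12, b22]] B' := by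
  obtain ⟨B', hB', hE⟩ := a2s_one h1 ((b11 - b01 * b01 / b00) / b00)
    ((b12 - b01 * b02 / b00) / b00) ((b22 - b02 * b02 / b00) / b00)
  refine ⟨B', hB', trans (mk 1 0 0 (-b01 / b00) 1 0 (-b02 / b00) 0 1 b00 ?_ h0 ?_ ?_ ?_ ?_ ?_ ?_ ?_
    ?_ ?_) hE⟩
  · simp
  all_goals (field_simp; try ring)

theorem a2s (h1 : KREStmt) (_h2 : KR1Stmt) : A2SStmt := by
  intro p _ B hA hS
  obtain ⟨b00, b01, b02, b10, b11, b12, b20, b21, b22, rfl⟩ := ex9 B
  have e01 : b01 = b10 := hS 0 1
  have e02 : b02 = b20 := hS 0 2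
  have e12 : b12 = b21 := hS 1 2
  subst e01 e02 e12
  by_cases h00 : b00 = 0
  · by_cases h11 : b11 = 0
    · by_cases h22 : b22 = 0
      · subst h00 h11 h22
        by_cases g01 : 2 * b01 = 0
        · by_cases g02 : 2 * b02 = 0
          · by_cases g12 : 2 * b12 = 0
            · exfalso
              apply hA
              refine ⟨?_, ?_⟩
              · intro i; fin_cases i <;> rfl
              · intro i j
                fin_cases i <;> fin_cases j
                · show (0 : ZMod p) = -0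
                  ring
                · show b01 = -b01
                  linear_combination g01
                · show b02 = -b02
                  linear_combination g02
                · show b01 = -b01
                  linear_combination g01
                · show (0 : ZMod p) = -0
                  ring
                · show b12 = -b12
                  linear_combination g12
                · show b02 = -b02
                  linear_combination g02
                · show b12 = -b12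
                  linear_combination g12
                · show (0 : ZMod p) = -0
                  ring
            · obtain ⟨B', hB', hE⟩ := a2s_zero h1 (2 * b12) (b01 + b02) b12 0 b01 0 g12
              refine ⟨B', hB', trans (mk 0 1 1 1 0 0 0 1 0 1 ?_ one_ne_zero ?_ ?_ ?_ ?_ ?_ ?_ ?_
                ?_ ?_) hE⟩
              · simp
              all_goals ring
          · obtain ⟨B', hB', hE⟩ := a2s_zero h1 (2 * b02) (b01 + b12) b02 0 b01 0 g02
            refine ⟨B', hB', trans (mk 1 0 1 0 1 0 1 0 0 1 ?_ one_ne_zero ?_ ?_ ?_ ?_ ?_ ?_ ?_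
                ?_ ?_) hE⟩
            · simp
            all_goals ring
        · obtain ⟨B', hB', hE⟩ := a2s_zero h1 (2 * b01) b01 (b02 + b12) 0 b02 0 g01
          refine ⟨B', hB', trans (mk 1 1 0 1 0 0 0 0 1 1 ?_ one_ne_zero ?_ ?_ ?_ ?_ ?_ ?_ ?_
                ?_ ?_) hE⟩
          · simp
          all_goals ring
      · obtain ⟨B', hB', hE⟩ := a2s_zero h1 b22 b12 b02 b11 b01 b00 h22
        refine ⟨B', hB', trans (mk 0 0 1 0 1 0 1 0 0 1 ?_ one_ne_zero ?_ ?_ ?_ ?_ ?_ ?_ ?_
                ?_ ?_) hE⟩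
        · simp
        all_goals ring
    · obtain ⟨B', hB', hE⟩ := a2s_zero h1 b11 b01 b12 b00 b02 b22 h11
      refine ⟨B', hB', trans (mk 0 1 0 1 0 0 0 0 1 1 ?_ one_ne_zero ?_ ?_ ?_ ?_ ?_ ?_ ?_
                ?_ ?_) hE⟩
      · simp
      all_goals ring
  · exact a2s_zero h1 b00 b01 b02 b11 b12 b22 h00

end Pool.NR
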