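import Pool.Agent.H97.NR.Stmts

/-! Small tools for scaled congruence of `3 x 3` forms. -/

namespace Pool.NR.H31

variable {p : ℕ}

theorem trans [Fact p.Prime] {B B' B'' : Fin 3 → Fin 3 → ZMod p} (h1 : Eq2a B B')
    (h2 : Eq2a B' B'') : Eq2a B B'' := by
  obtain ⟨g, r, hg, hr, h⟩ := h1
  obtain ⟨g', r', hg', hr', h'⟩ := h2
  refine ⟨g * g', r * r', ?_, mul_ne_zero hr hr', ?_⟩
  · rw [Matrix.det_mul]; exact mul_ne_zero hg hg'
  · intro i j
    have e1 : r * r' * B'' i j = r * (r' * B'' i j) := by ring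
    rw [e1, h' i j]
    simp only [Finset.mul_sum]
    have e2 : ∀ k l, r * (g' k i * g' l j * B' k l) = g' k i * g' l j * (r * B' k l) := by
      intro k l; ring
    simp only [e2, h]
    simp only [Matrix.mul_apply, Fin.sum_univ_three]
    ring

theorem eta3 (B : Fin 3 → Fin 3 → ZMod p) : B = ![![B 0 0, B 0 1, B 0 2],
    ![B 1 0, B 1 1, B 1 2], ![B 2 0, B 2 1, B 2 2]] := by
  funext i j
  fin_cases i <;> fin_cases j <;> rfl

theorem ex9 (B : Fin 3 → Fin 3 → ZMod p) : ∃ b00 b01 b02 b10 b11 b12 b20 b21 b22 : ZMod p,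
    B = ![![b00, b01, b02], ![b10, b11, b12], ![b20, b21, b22]] :=
  ⟨_, _, _, _, _, _, _, _, _, eta3 B⟩

/-- The new generators are given by explicit column vectors `a`, `b`, `c`. -/
theorem mk [Fact p.Prime] {b00 b01 b02 b10 b11 b12 b20 b21 b22
    n00 n01 n02 n10 n11 n12 n20 n21 n22 : ZMod p}
    (a0 a1 a2 b0 b1 b2 c0 c1 c2 r : ZMod p)
    (hd : a0 * (b1 * c2 - b2 * c1) - b0 * (a1 * c2 - a2 * c1) + c0 * (a1 * b2 - a2 * b1) ≠ 0)
    (hr : r ≠ 0)
    (h00 : r * n00 = a0 * (a0 * b00 + a1 * b01 + a2 * b02) + a1 * (a0 * b10 + a1 * b11 + a2 * b12) +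
      a2 * (a0 * b20 + a1 * b21 + a2 * b22))
    (h01 : r * n01 = a0 * (b0 * b00 + b1 * b01 + b2 * b02) + a1 * (b0 * b10 + b1 * b11 + b2 * b12) +
      a2 * (b0 * b20 + b1 * b21 + b2 * b22))
    (h02 : r * n02 = a0 * (c0 * b00 + c1 * b01 + c2 * b02) + a1 * (c0 * b10 + c1 * b11 + c2 * b12) +
      a2 * (c0 * b20 + c1 * b21 + c2 * b22))
    (h10 : r * n10 = b0 * (a0 * b00 + a1 * b01 + a2 * b02) + b1 * (a0 * b10 + a1 * b11 + a2 * b12) +
      b2 * (a0 * b20 + a1 * b21 + a2 * b22))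
    (h11 : r * n11 = b0 * (b0 * b00 + b1 * b01 + b2 * b02) + b1 * (b0 * b10 + b1 * b11 + b2 * b12) +
      b2 * (b0 * b20 + b1 * b21 + b2 * b22))
    (h12 : r * n12 = b0 * (c0 * b00 + c1 * b01 + c2 * b02) + b1 * (c0 * b10 + c1 * b11 + c2 * b12) +
      b2 * (c0 * b20 + c1 * b21 + c2 * b22))
    (h20 : r * n20 = c0 * (a0 * b00 + a1 * b01 + a2 * b02) + c1 * (a0 * b10 + a1 * b11 + a2 * b12) +
      c2 * (a0 * b20 + a1 * b21 + a2 * b22))
    (h21 : r * n21 = c0 * (b0 * b00 + b1 * b01 + b2 * b02) + c1 * (b0 * b10 + b1 * b11 + b2 * b12) +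
      c2 * (b0 * b20 + b1 * b21 + b2 * b22))
    (h22 : r * n22 = c0 * (c0 * b00 + c1 * b01 + c2 * b02) + c1 * (c0 * b10 + c1 * b11 + c2 * b12) +
      c2 * (c0 * b20 + c1 * b21 + c2 * b22)) :
    Eq2a ![![b00, b01, b02], ![b10, b11, b12], ![b20, b21, b22]]
      ![![n00, n01, n02], ![n10, n11, n12], ![n20, n21, n22]] := by
  refine ⟨Matrix.of ![![a0, b0, c0], ![a1, b1, c1], ![a2, b2, c2]], r, ?_, hr, ?_⟩
  · rw [Matrix.det_fin_three]
    intro h0
    apply hd
    simp at h0
    linear_combination h0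
  · intro i j
    fin_cases i <;> fin_cases j
    · simp [Fin.sum_univ_three]; linear_combination h00
    · simp [Fin.sum_univ_three]; linear_combination h01
    · simp [Fin.sum_univ_three]; linear_combination h02
    · simp [Fin.sum_univ_three]; linear_combination h10
    · simp [Fin.sum_univ_three]; linear_combination h11
    · simp [Fin.sum_univ_three]; linear_combination h12
    · simp [Fin.sum_univ_three]; linear_combination h20
    · simp [Fin.sum_univ_three]; linear_combination h21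
    · simp [Fin.sum_univ_three]; linear_combination h22

theorem rep2_two : ∀ q t c : ZMod 2, q ≠ 0 → t ≠ 0 → ∃ a b : ZMod 2, q * a ^ 2 + t * b ^ 2 = c := by
  decide

/-- A diagonal binary form with nonzero coefficients represents everything. -/
theorem rep2 [Fact p.Prime] (q t c : ZMod p) (hq : q ≠ 0) (ht : t ≠ 0) :
    ∃ a b : ZMod p, q * a ^ 2 + t * b ^ 2 = c := by
  rcases (Fact.out : p.Prime).eq_two_or_odd' with h2 | hodd
  · subst h2
    exact rep2_two q t c hq ht
  · have hc : Fintype.card (ZMod p) % 2 = 1 := by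
      rw [ZMod.card]; exact Nat.odd_iff.mp hodd
    obtain ⟨a, b, hab⟩ := FiniteField.exists_root_sum_quadratic
      (f := Polynomial.C q * Polynomial.X ^ 2 - Polynomial.C c)
      (g := Polynomial.C t * Polynomial.X ^ 2) (by
        have : Polynomial.C q * Polynomial.X ^ 2 - Polynomial.C c =
          Polynomial.C q * Polynomial.X ^ 2 + Polynomial.C 0 * Polynomial.X + Polynomial.C (-c) := by
          simp [sub_eq_add_neg]
        rw [this]
        exact Polynomial.degree_quadratic hq) (by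
        have : Polynomial.C t * Polynomial.X ^ 2 =
          Polynomial.C t * Polynomial.X ^ 2 + Polynomial.C 0 * Polynomial.X + Polynomial.C 0 := by
          simp
        rw [this]
        exact Polynomial.degree_quadratic ht) hc
    refine ⟨a, b, ?_⟩
    simp at hab
    linear_combination hab

theorem two_ne [Fact p.Prime] (h2 : p ≠ 2) : (2 : ZMod p) ≠ 0 := by
  have : Fact (2 < p) := ⟨lt_of_le_of_ne (Fact.out : p.Prime).two_le (Ne.symm h2)⟩
  exact Ring.two_ne_zero (by rw [ZMod.ringChar_zmod_n]; exact h2)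

theorem zmod2 : ∀ x : ZMod 2, x = 0 ∨ x = 1 := by decide

end Pool.NR.H31
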